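import Pool.Agent.H98.RFZ.Targets
import Pool.Agent.H98.RFC.Targets

/-!
Board rfz_modules (MP_057a7e_pr), row MAIN: the relative decay inequality.
-/

set_option autoImplicit false

noncomputable section

open MeasureTheory ProbabilityTheory Pool.Agent.H98.RFC Pool.Agent.H98.RFZ

namespace Pool.Agent.H1.RFZ

theorem isProb_gam : IsProbabilityMeasure gam := by
  unfold gam
  infer_instance

theorem measurable_scale (ε : ℝ) : Measurable (fun η : Site → ℝ => fun x => ε * η x) := by
  fun_prop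

theorem measurableSet_pred (hMEA : Z_MEA) (R : ℕ) (J : Site → ℝ) (ε : ℝ) (Λ : Finset Site)
    (P : Finset Site → Prop) : MeasurableSet {η : Site → ℝ | P (Ds R J (fun x => ε * η x) Λ)} := by
  let _ : MeasurableSpace (Finset Site) := ⊤
  have h1 : Measurable (fun η : Site → ℝ => Ds R J (fun x => ε * η x) Λ) := by
    refine measurable_to_countable' fun S => ?_
    exact (measurable_scale ε) (hMEA R J Λ S)
  exact h1 (t := {S | P S}) MeasurableSpace.measurableSet_top

theorem Jt_nonneg (R : ℕ) (J : Site → ℝ) (hJ : IsCoupling R J) : 0 ≤ Jt R J :=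
  Finset.sum_nonneg fun z _ => hJ.nonneg z

theorem sum_J_le (R : ℕ) (J : Site → ℝ) (hJ : IsCoupling R J) (a : Site) (T : Finset Site) :
    ∑ b ∈ T, J (a - b) ≤ Jt R J := by
  unfold Jt
  have h1 : ∑ b ∈ T, J (a - b) = ∑ z ∈ T.image (fun b => a - b), J z := by
    rw [Finset.sum_image]
    intro x _ y _ hxy
    simpa using hxy
  rw [h1]
  rw [← Finset.sum_filter_add_sum_filter_not _ (fun z => z ∈ box R)]
  have h2 : ∑ z ∈ (T.image (fun b => a - b)).filter (fun z => ¬ z ∈ box R), J z = 0 :=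
    Finset.sum_eq_zero fun z hz => hJ.range z (Finset.mem_filter.1 hz).2
  rw [h2, add_zero]
  refine Finset.sum_le_sum_of_subset_of_nonneg ?_ fun z _ _ => hJ.nonneg z
  intro z hz
  exact (Finset.mem_filter.1 hz).2

theorem cap_le (R : ℕ) (J : Site → ℝ) (hJ : IsCoupling R J) (D : Set Site) (U : Finset Site) :
    cap R J D U ≤ (U.card : ℝ) * Jt R J := by
  unfold cap
  rw [← nsmul_eq_mul]
  refine Finset.sum_le_card_nsmul _ _ _ fun a _ => ?_
  refine le_trans (Finset.sum_le_sum fun b _ => ?_) (sum_J_le R J hJ a (hull R U \ U))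
  split_ifs
  · exact le_rfl
  · exact hJ.nonneg _

theorem Ds_sub (R : ℕ) (J h : Site → ℝ) (Λ : Finset Site) : Ds R J h Λ ⊆ Λ := by
  classical
  unfold Ds gp
  exact Finset.sdiff_subset.trans (Finset.filter_subset _ _)

theorem pf_MAIN (h1 : P_TLB) (h2 : P_CUT) (h3 : P_ANN) (h4 : P_AREA) (h5 : P_RCT) (h6 : Z_CUT)
    (h7 : Z_TEN) (h8 : Z_MEA) : P_MAIN := by
  classical
  intro R J hJ ε hε p K w hp hK hw
  have := isProb_gam
  have hR0 : (0 : ℝ) ≤ R := Nat.cast_nonneg R
  have hw4 : 4 ≤ w := by linarith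
  have hw0 : 0 < w := by linarith
  have hK0 : 0 < K := by linarith
  have hJt := Jt_nonneg R J hJ
  set V := rect p K w with hV
  set Λ := rect p K (4 * w) with hΛ
  have hVΛ : V ⊆ Λ := (h5 p K w hp hK hw0.le).2.1 (4 * w) (by linarith)
  obtain ⟨ht1, _, ht3⟩ := h7 R J hJ V Λ hVΛ
  have hlow := h1 R J hJ ε hε p K w hp hK hw4
  rw [← hV, ← hΛ] at hlow
  -- the conditions on the position
  let cd : Site → Prop := fun x =>
      |(fdet p x : ℝ)| ≤ 3 * w * nrm p ∧ |(gdot p x : ℝ)| ≤ 3 * K * w * nrm p ∧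
      (2 * w * nrm p < |(fdet p x : ℝ)| ∨ 3 / 2 * K * w * nrm p < |(gdot p x : ℝ)|)
  let E : Set (Site → ℝ) := {η | SP R J (fun x => ε * η x) p K w}
  have hEm : MeasurableSet E := by
    refine measurableSet_pred h8 R J ε (Λ \ V) (fun S => ∃ (k : ℕ) (x : ℕ → Site),
      IsPath J S k x ∧
      (∀ i, i ≤ k → |(gdot p (x i) : ℝ)| ≤ 3 * K * w * nrm p) ∧
      |(fdet p (x 0) : ℝ)| ≤ 2 * w * nrm p ∧ 3 * w * nrm p ≤ |(fdet p (x k) : ℝ)| ∧
      (k : ℝ) < K * w)
  let B : Site → Set (Site → ℝ) := fun x => {η | x ∈ Ds R J (fun z => ε * η z) (Λ \ V)}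
  have hBm : ∀ x, MeasurableSet (B x) := fun x =>
    measurableSet_pred h8 R J ε (Λ \ V) (fun S => x ∈ S)
  set c1 : ℝ := (16 * R + 8 : ℝ) * Jt R J / (K * w) with hc1
  set c2 : ℝ := 64 * Jt R J * K * w ^ 2 with hc2
  have hc1' : 0 ≤ c1 := by positivity
  have hc2' : 0 ≤ c2 := by positivity
  let F : (Site → ℝ) → ℝ := fun η => c1 * ∑ x ∈ Λ.filter cd, (B x).indicator (fun _ => (1 : ℝ)) η +
    c2 * E.indicator (fun _ => (1 : ℝ)) η
  have hle : ∀ η : Site → ℝ, ten R J (fun x => ε * η x) V Λ ≤ F η := by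
    intro η
    have hs0 : 0 ≤ ∑ x ∈ Λ.filter cd, (B x).indicator (fun _ => (1 : ℝ)) η :=
      Finset.sum_nonneg fun x _ => Set.indicator_nonneg (fun _ _ => zero_le_one) _
    by_cases hE : η ∈ E
    · have h9 := h6 R J hJ (fun x => ε * η x) V V Λ (Finset.Subset.refl _) hVΛ
      have h10 := cap_le R J hJ (↑V ∪ ↑(Ds R J (fun x => ε * η x) (Λ \ V)) ∪ (↑Λ)ᶜ) V
      have h11 := (h4 p K w hp hK hw4).2
      rw [← hV] at h11
      have h12 : (V.card : ℝ) * Jt R J ≤ 16 * K * w ^ 2 * Jt R J :=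
        mul_le_mul_of_nonneg_right h11 hJt
      show _ ≤ c1 * _ + c2 * E.indicator (fun _ => (1 : ℝ)) η
      rw [Set.indicator_of_mem hE, mul_one]
      have h13 := mul_nonneg hc1' hs0
      calc ten R J (fun x => ε * η x) V Λ ≤ 4 * (16 * K * w ^ 2 * Jt R J) := by linarith
        _ = 0 + c2 := by rw [hc2]; ring
        _ ≤ _ := add_le_add h13 le_rfl
    · have h9 := h2 R J hJ (fun x => ε * η x) p K w hp hK hw hE
      rw [← hV, ← hΛ, ← hc1] at h9
      show _ ≤ c1 * _ + c2 * E.indicator (fun _ => (1 : ℝ)) η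
      rw [Set.indicator_of_notMem hE, mul_zero, add_zero]
      refine h9.trans (mul_le_mul_of_nonneg_left ?_ hc1')
      have h14 : ((Ds R J (fun x => ε * η x) (Λ \ V)).filter cd) ⊆ (Λ.filter cd).filter
          (fun x => η ∈ B x) := by
        intro x hx
        rw [Finset.mem_filter] at hx
        rw [Finset.mem_filter, Finset.mem_filter]
        exact ⟨⟨(Finset.mem_sdiff.1 (Ds_sub _ _ _ _ hx.1)).1, hx.2⟩, hx.1⟩
      have h15 : ∑ x ∈ Λ.filter cd, (B x).indicator (fun _ => (1 : ℝ)) η =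
          (((Λ.filter cd).filter (fun x => η ∈ B x)).card : ℝ) := by
        rw [Finset.card_filter]
        push_cast
        refine Finset.sum_congr rfl fun x _ => ?_
        by_cases hx : η ∈ B x
        · rw [Set.indicator_of_mem hx, if_pos hx]
        · rw [Set.indicator_of_notMem hx, if_neg hx]
      rw [h15]
      exact Nat.cast_le.2 (Finset.card_le_card h14)
  have hint : ∀ A : Set (Site → ℝ), MeasurableSet A →
      Integrable (A.indicator (fun _ => (1 : ℝ))) gam := fun A hA =>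
    (integrable_const (1 : ℝ)).indicator hA
  have hFint : Integrable F gam :=
    ((integrable_finsetSum _ fun x _ => hint (B x) (hBm x)).const_mul c1).add
      ((hint E hEm).const_mul c2)
  have hup : ∫ η, ten R J (fun x => ε * η x) V Λ ∂gam ≤ ∫ η, F η ∂gam :=
    integral_mono_of_nonneg (Filter.Eventually.of_forall fun η => ht1 _) hFint
      (Filter.Eventually.of_forall hle)
  have hind : ∀ A : Set (Site → ℝ), MeasurableSet A →
      ∫ η, A.indicator (fun _ => (1 : ℝ)) η ∂gam = (gam A).toReal := by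
    intro A hA
    rw [integral_indicator_const _ hA, smul_eq_mul, mul_one]
    rfl
  have hFv : ∫ η, F η ∂gam = c1 * ∑ x ∈ Λ.filter cd, (gam (B x)).toReal +
      c2 * (gam E).toReal := by
    show ∫ η, (c1 * ∑ x ∈ Λ.filter cd, (B x).indicator (fun _ => (1 : ℝ)) η +
      c2 * E.indicator (fun _ => (1 : ℝ)) η) ∂gam = _
    rw [integral_add ((integrable_finsetSum _ fun x _ => hint (B x) (hBm x)).const_mul c1)
      ((hint E hEm).const_mul c2), integral_const_mul, integral_const_mul,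
      integral_finsetSum _ fun x _ => hint (B x) (hBm x), hind E hEm]
    rw [Finset.sum_congr rfl fun x _ => hind (B x) (hBm x)]
  have hsum : ∑ x ∈ Λ.filter cd, (gam (B x)).toReal ≤
      256 * K * w ^ 2 * mK R J ε p K (w / 2) := by
    have hm0 : 0 ≤ mK R J ε p K (w / 2) := by
      unfold mK
      exact ENNReal.toReal_nonneg
    calc ∑ x ∈ Λ.filter cd, (gam (B x)).toReal
        ≤ ∑ _x ∈ Λ.filter cd, mK R J ε p K (w / 2) := by
          refine Finset.sum_le_sum fun x hx => ?_
          have hx' := (Finset.mem_filter.1 hx).2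
          exact h3 R J hJ ε hε.ne' p K w hp hK hw0 x hx'.1 hx'.2.1 hx'.2.2
      _ = ((Λ.filter cd).card : ℝ) * mK R J ε p K (w / 2) := by
          rw [Finset.sum_const, nsmul_eq_mul]
      _ ≤ (256 * K * w ^ 2) * mK R J ε p K (w / 2) := by
          refine mul_le_mul_of_nonneg_right ?_ hm0
          have h16 := (h4 p K (4 * w) hp hK (by linarith)).2
          rw [← hΛ] at h16
          have h17 : ((Λ.filter cd).card : ℝ) ≤ (Λ.card : ℝ) := by
            exact_mod_cast Finset.card_le_card (Finset.filter_subset _ _)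
          calc ((Λ.filter cd).card : ℝ) ≤ 16 * K * (4 * w) ^ 2 := h17.trans h16
            _ = 256 * K * w ^ 2 := by ring
  have hall : 2 * ε * Real.sqrt K * w * mK R J ε p K (5 * w) ≤
      c1 * (256 * K * w ^ 2 * mK R J ε p K (w / 2)) + c2 * (gam E).toReal := by
    refine hlow.trans (hup.trans ?_)
    rw [hFv]
    exact add_le_add (mul_le_mul_of_nonneg_left hsum hc1') le_rfl
  have e1 : c1 * (256 * K * w ^ 2 * mK R J ε p K (w / 2)) =
      w * (256 * (16 * R + 8) * Jt R J * mK R J ε p K (w / 2)) := by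
    rw [hc1]
    field_simp
  have e2 : c2 * (gam E).toReal = w * (64 * Jt R J * K * w * (gam E).toReal) := by
    rw [hc2]
    ring
  rw [e1, e2, ← mul_add] at hall
  have e3 : 2 * ε * Real.sqrt K * w * mK R J ε p K (5 * w) =
      w * (2 * ε * Real.sqrt K * mK R J ε p K (5 * w)) := by ring
  rw [e3] at hall
  exact le_of_mul_le_mul_left hall hw0

end Pool.Agent.H1.RFZ
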