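import Pool.Agent.H98.RFZ.Targets

/-!
Board rfz_modules (MP_057a7e_pr), row RCT: inclusions between rectangles and boxes.
-/

set_option autoImplicit false

noncomputable section

open MeasureTheory ProbabilityTheory Pool.Agent.H98.RFC Pool.Agent.H98.RFZ

namespace Pool.Agent.H1.RFZ

theorem nsq_pos {p : Site} (hp : p ≠ 0) : 0 < nsq p := by
  unfold nsq
  rcases lt_or_eq_of_le (add_nonneg (sq_nonneg p.1) (sq_nonneg p.2)) with h | h
  · exact h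
  · exfalso
    apply hp
    have h1 : p.1 = 0 := by nlinarith [sq_nonneg p.1, sq_nonneg p.2]
    have h2 : p.2 = 0 := by nlinarith [sq_nonneg p.1, sq_nonneg p.2]
    exact Prod.ext h1 h2

theorem nrm_pos {p : Site} (hp : p ≠ 0) : 0 < nrm p := by
  unfold nrm
  exact Real.sqrt_pos.2 (by exact_mod_cast nsq_pos hp)

theorem nrm_sq (p : Site) : nrm p ^ 2 = (nsq p : ℝ) := by
  unfold nrm
  refine Real.sq_sqrt ?_
  have : 0 ≤ nsq p := add_nonneg (sq_nonneg _) (sq_nonneg _)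
  exact_mod_cast this

theorem abs_le_of (p : Site) (K w : ℝ) (hp : p ≠ 0) (hK : 1 ≤ K) (hw : 0 ≤ w) (x : Site)
    (h1 : |(fdet p x : ℝ)| ≤ w * nrm p) (h2 : |(gdot p x : ℝ)| ≤ K * w * nrm p) :
    |(x.1 : ℝ)| ≤ (1 + K) * w ∧ |(x.2 : ℝ)| ≤ (1 + K) * w := by
  have hn := nrm_pos hp
  have hid : (fdet p x : ℝ) ^ 2 + (gdot p x : ℝ) ^ 2 = (nsq p : ℝ) * (nsq x : ℝ) := by
    unfold fdet gdot nsq
    push_cast
    ring
  have h3 : (fdet p x : ℝ) ^ 2 ≤ (w * nrm p) ^ 2 := sq_le_sq' (abs_le.1 h1).1 (abs_le.1 h1).2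
  have h4 : (gdot p x : ℝ) ^ 2 ≤ (K * w * nrm p) ^ 2 := sq_le_sq' (abs_le.1 h2).1 (abs_le.1 h2).2
  have h5 : (nsq p : ℝ) * (nsq x : ℝ) ≤ (nsq p : ℝ) * (w ^ 2 + (K * w) ^ 2) := by
    rw [← hid, ← nrm_sq p]
    calc (fdet p x : ℝ) ^ 2 + (gdot p x : ℝ) ^ 2 ≤ (w * nrm p) ^ 2 + (K * w * nrm p) ^ 2 :=
          add_le_add h3 h4
      _ = _ := by ring
  have h6 : (0 : ℝ) < (nsq p : ℝ) := by exact_mod_cast nsq_pos hp
  have h7 : (nsq x : ℝ) ≤ w ^ 2 + (K * w) ^ 2 := le_of_mul_le_mul_left h5 h6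
  have h8 : w ^ 2 + (K * w) ^ 2 ≤ ((1 + K) * w) ^ 2 := by nlinarith [mul_nonneg hw hw]
  have h9 : (nsq x : ℝ) = (x.1 : ℝ) ^ 2 + (x.2 : ℝ) ^ 2 := by
    unfold nsq
    push_cast
    rfl
  have h10 : 0 ≤ (1 + K) * w := mul_nonneg (by linarith) hw
  constructor
  · refine abs_le_of_sq_le_sq ?_ h10
    nlinarith [sq_nonneg (x.2 : ℝ)]
  · refine abs_le_of_sq_le_sq ?_ h10
    nlinarith [sq_nonneg (x.1 : ℝ)]

theorem mem_box_of {x : Site} {L : ℕ} (h1 : |(x.1 : ℝ)| ≤ L) (h2 : |(x.2 : ℝ)| ≤ L) :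
    x ∈ box L := by
  unfold box
  rw [Finset.mem_product, Finset.mem_Icc, Finset.mem_Icc]
  rw [abs_le] at h1 h2
  refine ⟨⟨?_, ?_⟩, ?_, ?_⟩
  · exact_mod_cast h1.1
  · exact_mod_cast h1.2
  · exact_mod_cast h2.1
  · exact_mod_cast h2.2

theorem mem_rect (p : Site) (K w : ℝ) (hp : p ≠ 0) (hK : 1 ≤ K) (hw : 0 ≤ w) (x : Site) :
    x ∈ rect p K w ↔
    |(fdet p x : ℝ)| ≤ w * nrm p ∧ |(gdot p x : ℝ)| ≤ K * w * nrm p := by
  unfold rect
  rw [Finset.mem_filter]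
  refine ⟨fun h => h.2, fun h => ⟨?_, h⟩⟩
  obtain ⟨h1, h2⟩ := abs_le_of p K w hp hK hw x h.1 h.2
  have h3 : (1 + K) * w ≤ (⌈(1 + K) * w⌉₊ : ℝ) := Nat.le_ceil _
  exact mem_box_of (h1.trans h3) (h2.trans h3)

theorem pf_RCT : P_RCT := by
  intro p K w hp hK hw
  have hn := nrm_pos hp
  refine ⟨mem_rect p K w hp hK hw, ?_, ?_, ?_⟩
  · intro w' hw' x hx
    rw [mem_rect p K w hp hK hw] at hx
    rw [mem_rect p K w' hp hK (hw.trans hw')]
    refine ⟨hx.1.trans (mul_le_mul_of_nonneg_right hw' hn.le), hx.2.trans ?_⟩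
    exact mul_le_mul_of_nonneg_right (mul_le_mul_of_nonneg_left hw' (by linarith)) hn.le
  · intro L hL x hx
    rw [mem_rect p K w hp hK hw] at hx
    obtain ⟨h1, h2⟩ := abs_le_of p K w hp hK hw x hx.1 hx.2
    exact mem_box_of (h1.trans hL) (h2.trans hL)
  · intro x hx y hy
    rw [mem_rect p K w hp hK hw] at hx
    rw [mem_rect p K (4 * w) hp hK (by linarith)] at hy
    rw [Finset.mem_image]
    refine ⟨y - x, ?_, by abel⟩
    rw [mem_rect p K (5 * w) hp hK (by linarith)]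
    have e1 : (fdet p (y - x) : ℝ) = fdet p y - fdet p x := by
      unfold fdet
      push_cast [Prod.fst_sub, Prod.snd_sub]
      ring
    have e2 : (gdot p (y - x) : ℝ) = gdot p y - gdot p x := by
      unfold gdot
      push_cast [Prod.fst_sub, Prod.snd_sub]
      ring
    rw [e1, e2]
    refine ⟨(abs_sub _ _).trans ?_, (abs_sub _ _).trans ?_⟩
    · linarith [hx.1, hy.1]
    · linarith [hx.2, hy.2]

end Pool.Agent.H1.RFZ
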