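import Pool.Agent.H98.RFZ.Targets
import Pool.Agent.H98.RFC.Targets

/-!
Board rfz_modules (MP_057a7e_pr), row TEN: the surface tension is nonnegative, depends only on the
field in the annulus, and is measurable.
-/

set_option autoImplicit false

noncomputable section

open MeasureTheory ProbabilityTheory Pool.Agent.H98.RFC Pool.Agent.H98.RFZ

namespace Pool.Agent.H1.RFZ

theorem em_le (R : ℕ) (J h : Site → ℝ) (Λ V : Finset Site) (B : Set Site) (S : Finset Site)
    (hS : S ⊆ Λ \ V) : em R J h Λ V B ≤ en R J h Λ (↑S ∪ B) :=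
  Finset.inf'_le _ (Finset.mem_powerset.2 hS)

theorem exists_em (R : ℕ) (J h : Site → ℝ) (Λ V : Finset Site) (B : Set Site) :
    ∃ S : Finset Site, S ⊆ Λ \ V ∧ em R J h Λ V B = en R J h Λ (↑S ∪ B) := by
  obtain ⟨S, hS, h1⟩ := Finset.exists_mem_eq_inf' (s := (Λ \ V).powerset)
    ⟨∅, Finset.empty_mem_powerset _⟩ (fun S => en R J h Λ (↑S ∪ B))
  exact ⟨S, Finset.mem_powerset.1 hS, h1⟩

theorem en_sub (R : ℕ) (J h h' : Site → ℝ) (Λ V : Finset Site) (hV : V ⊆ Λ)
    (hh : ∀ x ∈ Λ \ V, h x = h' x) (B : Set Site) (S : Finset Site) (hS : S ⊆ Λ \ V) :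
    en R J h Λ (↑S ∪ B) + ∑ x ∈ V, (h x - h' x) * sg B x = en R J h' Λ (↑S ∪ B) := by
  unfold en
  have h1 : ∑ x ∈ Λ, h x * sg (↑S ∪ B) x = ∑ x ∈ Λ, h' x * sg (↑S ∪ B) x +
      ∑ x ∈ V, (h x - h' x) * sg B x := by
    have h2 : ∑ x ∈ V, (h x - h' x) * sg B x = ∑ x ∈ Λ, (h x - h' x) * sg (↑S ∪ B) x := by
      rw [← Finset.sum_subset hV]
      · refine Finset.sum_congr rfl fun x hx => ?_
        congr 1
        have h3 : x ∈ (↑S ∪ B : Set Site) ↔ x ∈ B := by
          rw [Set.mem_union, Finset.mem_coe]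
          constructor
          · rintro (h4 | h4)
            · exact absurd hx (Finset.mem_sdiff.1 (hS h4)).2
            · exact h4
          · exact fun h4 => Or.inr h4
        unfold sg
        by_cases h5 : x ∈ B
        · rw [if_pos h5, if_pos (h3.2 h5)]
        · rw [if_neg h5, if_neg (fun h6 => h5 (h3.1 h6))]
      · intro x hx hxV
        rw [hh x (Finset.mem_sdiff.2 ⟨hx, hxV⟩), sub_self, zero_mul]
    rw [h2, ← Finset.sum_add_distrib]
    exact Finset.sum_congr rfl fun x _ => by ring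
  rw [h1]
  ring

theorem em_sub_le (R : ℕ) (J h h' : Site → ℝ) (Λ V : Finset Site) (hV : V ⊆ Λ)
    (hh : ∀ x ∈ Λ \ V, h x = h' x) (B : Set Site) :
    em R J h Λ V B + ∑ x ∈ V, (h x - h' x) * sg B x ≤ em R J h' Λ V B := by
  obtain ⟨S, hS, h1⟩ := exists_em R J h' Λ V B
  rw [h1, ← en_sub R J h h' Λ V hV hh B S hS]
  have h2 := em_le R J h Λ V B S hS
  linarith

theorem em_sub (R : ℕ) (J h h' : Site → ℝ) (Λ V : Finset Site) (hV : V ⊆ Λ)
    (hh : ∀ x ∈ Λ \ V, h x = h' x) (B : Set Site) :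
    em R J h Λ V B + ∑ x ∈ V, (h x - h' x) * sg B x = em R J h' Λ V B := by
  refine le_antisymm (em_sub_le R J h h' Λ V hV hh B) ?_
  have h1 := em_sub_le R J h' h Λ V hV (fun x hx => (hh x hx).symm) B
  have h2 : ∑ x ∈ V, (h' x - h x) * sg B x = -∑ x ∈ V, (h x - h' x) * sg B x := by
    rw [← Finset.sum_neg_distrib]
    exact Finset.sum_congr rfl fun x _ => by ring
  rw [h2] at h1
  linarith

theorem measurable_en (R : ℕ) (J : Site → ℝ) (Λ : Finset Site) (A : Set Site) :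
    Measurable (fun h : Site → ℝ => en R J h Λ A) := by
  unfold en
  fun_prop

theorem measurable_em (R : ℕ) (J : Site → ℝ) (Λ V : Finset Site) (B : Set Site) :
    Measurable (fun h : Site → ℝ => em R J h Λ V B) := by
  have h1 : (fun h : Site → ℝ => em R J h Λ V B) =
      (Λ \ V).powerset.inf' ⟨∅, Finset.empty_mem_powerset _⟩
        (fun S => fun h : Site → ℝ => en R J h Λ (↑S ∪ B)) := by
    funext h
    rw [Finset.inf'_apply]
    rfl
  rw [h1]
  exact Finset.inf'_induction _ _ (fun f hf g hg => hf.inf hg)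
    fun S _ => measurable_en R J Λ (↑S ∪ B)

theorem pf_TEN (hSUB : Pool.Agent.H98.RFC.T_SUB) : Z_TEN := by
  intro R J hJ V Λ hV
  refine ⟨?_, ?_, ?_⟩
  · intro h
    obtain ⟨S, hS, h1⟩ := exists_em R J h Λ V (↑Λ)ᶜ
    obtain ⟨S', hS', h2⟩ := exists_em R J h Λ V ↑V
    have h3 := hSUB R J hJ h Λ (↑S ∪ (↑Λ)ᶜ) (↑S' ∪ ↑V)
    have h4 : ((↑S ∪ (↑Λ)ᶜ) ∩ (↑S' ∪ ↑V) : Set Site) = ↑(S ∩ S') ∪ ∅ := by
      ext x
      simp only [Set.mem_inter_iff, Set.mem_union, Set.mem_compl_iff, Finset.mem_coe,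
        Set.mem_empty_iff_false, or_false, Finset.mem_inter]
      constructor
      · rintro ⟨a | a, b | b⟩
        · exact ⟨a, b⟩
        · exact absurd b (Finset.mem_sdiff.1 (hS a)).2
        · exact absurd (Finset.mem_sdiff.1 (hS' b)).1 a
        · exact absurd (hV b) a
      · rintro ⟨a, b⟩
        exact ⟨Or.inl a, Or.inl b⟩
    have h5 : ((↑S ∪ (↑Λ)ᶜ) ∪ (↑S' ∪ ↑V) : Set Site) = ↑(S ∪ S') ∪ ((↑Λ)ᶜ ∪ ↑V) := by
      ext x
      simp only [Set.mem_union, Set.mem_compl_iff, Finset.mem_coe, Finset.mem_union]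
      tauto
    rw [h4, h5] at h3
    have h6 := em_le R J h Λ V ∅ (S ∩ S') (Finset.inter_subset_left.trans hS)
    have h7 := em_le R J h Λ V ((↑Λ)ᶜ ∪ ↑V) (S ∪ S') (Finset.union_subset hS hS')
    unfold ten
    linarith
  · intro h h' hh
    have h1 := em_sub R J h h' Λ V hV hh (↑Λ)ᶜ
    have h2 := em_sub R J h h' Λ V hV hh ↑V
    have h3 := em_sub R J h h' Λ V hV hh ((↑Λ)ᶜ ∪ ↑V)
    have h4 := em_sub R J h h' Λ V hV hh ∅
    have h5 : ∑ x ∈ V, (h x - h' x) * sg (↑Λ)ᶜ x = ∑ x ∈ V, (h x - h' x) * sg ∅ x := by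
      refine Finset.sum_congr rfl fun x hx => ?_
      congr 1
      unfold sg
      rw [if_neg, if_neg]
      · simp
      · simpa using hV hx
    have h6 : ∑ x ∈ V, (h x - h' x) * sg ↑V x =
        ∑ x ∈ V, (h x - h' x) * sg ((↑Λ)ᶜ ∪ ↑V) x := by
      refine Finset.sum_congr rfl fun x hx => ?_
      congr 1
      unfold sg
      rw [if_pos, if_pos]
      · exact Or.inr hx
      · exact hx
    unfold ten
    linarith
  · unfold ten
    exact (((measurable_em R J Λ V _).add (measurable_em R J Λ V _)).sub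
      (measurable_em R J Λ V _)).sub (measurable_em R J Λ V _)

end Pool.Agent.H1.RFZ
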